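import Mathlib
import Pool.Agent.H71R3.FPT2

/-!
# MP_c68506_an, Q1: full affirmative answer

Every semitopological semigroup `S` such that `WAP(S)` has a left invariant mean has the fixed
point property (F) for weakly separately continuous, weakly quasi-equicontinuous, nonexpansive
representations on weakly compact convex sets; no separability of `S` is assumed.
-/

set_option autoImplicit false

universe u v w x y

namespace Pool.Agent.Results.MP_c68506_an.FixedPointWAP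

open Filter Topology
open scoped BoundedContinuousFunction
open Pool.Agent.H71R3.Groth

section Defs

variable (𝕂 : Type x) [RCLike 𝕂] {S : Type u} [Semigroup S] [TopologicalSpace S]
  [SeparatelyContinuousMul S]

/-- The left translate `ℓ_a f`, `ℓ_a f (t) = f (a t)`, of a bounded continuous function. -/
def leftTranslate (a : S) (f : S →ᵇ 𝕂) : S →ᵇ 𝕂 :=
  f.compContinuous ⟨fun t => a * t, SeparatelyContinuousMul.continuous_const_mul⟩

/-- `f ∈ WAP(S)`: the orbit `{ℓ_a f : a ∈ S}` is relatively compact in the weak topology of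
`C_b(S)`. -/
def IsWeaklyAP (f : S →ᵇ 𝕂) : Prop :=
  IsCompact (closure (Set.range fun a : S => toWeakSpace 𝕂 (S →ᵇ 𝕂) (leftTranslate 𝕂 a f)))

/-- `m` restricts to a left invariant mean on `WAP(S)`: on weakly almost periodic functions it is
additive, homogeneous, positive and invariant under left translation, and `m 1 = 1`. (The values
of `m` outside `WAP(S)` are irrelevant.) -/
structure IsLeftInvariantMean (m : (S →ᵇ 𝕂) → 𝕂) : Prop where
  map_add : ∀ f g, IsWeaklyAP 𝕂 f → IsWeaklyAP 𝕂 g → m (f + g) = m f + m g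
  map_smul : ∀ (c : 𝕂) f, IsWeaklyAP 𝕂 f → m (c • f) = c * m f
  nonneg : ∀ f, IsWeaklyAP 𝕂 f → (∀ s, ∃ r : ℝ, 0 ≤ r ∧ f s = (r : 𝕂)) →
    ∃ r : ℝ, 0 ≤ r ∧ m f = (r : 𝕂)
  map_one : m 1 = 1
  invariant : ∀ (a : S) f, IsWeaklyAP 𝕂 f → m (leftTranslate 𝕂 a f) = m f

variable (S) in
/-- `WAP(S)` has a left invariant mean. -/
def HasLIM : Prop := ∃ m : (S →ᵇ 𝕂) → 𝕂, IsLeftInvariantMean 𝕂 m

end Defs

/-- Property (F): every weakly separately continuous, weakly quasi-equicontinuous,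
`Q`-nonexpansive representation of `S` on a nonempty weakly compact convex subset `C` of a
Hausdorff locally convex space `(E, Q)` over `𝕜` has a common fixed point. -/
def PropertyF (𝕜 : Type y) [RCLike 𝕜] (S : Type u) [Semigroup S] [TopologicalSpace S] : Prop :=
  ∀ (E : Type v) [AddCommGroup E] [Module 𝕜 E] [Module ℝ E] [IsScalarTower ℝ 𝕜 E]
    [TopologicalSpace E] [T2Space E] (ι : Type w) (Q : ι → Seminorm 𝕜 E), WithSeminorms Q →
    ∀ C : Set (WeakSpace 𝕜 E), C.Nonempty → IsCompact C → Convex ℝ C →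
    ∀ T : S → C → C,
      -- `T` is a representation
      (∀ s t, T (s * t) = T s ∘ T t) →
      -- weakly separately continuous
      (∀ x : C, Continuous fun s => T s x) → (∀ s, Continuous (T s)) →
      -- weakly quasi-equicontinuous
      (∀ σ ∈ closure (Set.range T), Continuous σ) →
      -- `Q`-nonexpansive
      (∀ s i (x y : C), Q i ((toWeakSpace 𝕜 E).symm (T s x) - (toWeakSpace 𝕜 E).symm (T s y)) ≤
        Q i ((toWeakSpace 𝕜 E).symm x - (toWeakSpace 𝕜 E).symm y)) →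
      ∃ x : C, ∀ s, T s x = x

section Real

variable {𝕂 : Type x} [RCLike 𝕂] {S : Type u} [Semigroup S] [TopologicalSpace S]
  [SeparatelyContinuousMul S]

/-- the inclusion of the real functions -/
noncomputable def emb : (S →ᵇ ℝ) →L[ℝ] (S →ᵇ 𝕂) :=
  (RCLike.ofRealCLM (K := 𝕂)).compLeftContinuousBounded S

theorem emb_apply (f : S →ᵇ ℝ) (s : S) : (emb f : S →ᵇ 𝕂) s = ((f s : ℝ) : 𝕂) := rfl

theorem continuous_emb : Continuous fun z : WeakSpace ℝ (S →ᵇ ℝ) =>
    toWeakSpace 𝕂 (S →ᵇ 𝕂) (emb ((toWeakSpace ℝ (S →ᵇ ℝ)).symm z)) := by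
  refine WeakBilin.continuous_of_continuous_eval _ fun Λ => ?_
  let L1 : (S →ᵇ ℝ) →L[ℝ] ℝ := (RCLike.reCLM (K := 𝕂)).comp
    (((Λ : (S →ᵇ 𝕂) →L[𝕂] 𝕂).restrictScalars ℝ).comp emb)
  let L2 : (S →ᵇ ℝ) →L[ℝ] ℝ := (RCLike.imCLM (K := 𝕂)).comp
    (((Λ : (S →ᵇ 𝕂) →L[𝕂] 𝕂).restrictScalars ℝ).comp emb)
  have h1 : Continuous fun z : WeakSpace ℝ (S →ᵇ ℝ) => L1 ((toWeakSpace ℝ (S →ᵇ ℝ)).symm z) :=
    WeakBilin.eval_continuous (topDualPairing ℝ (S →ᵇ ℝ)).flip L1
  have h2 : Continuous fun z : WeakSpace ℝ (S →ᵇ ℝ) => L2 ((toWeakSpace ℝ (S →ᵇ ℝ)).symm z) :=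
    WeakBilin.eval_continuous (topDualPairing ℝ (S →ᵇ ℝ)).flip L2
  have h3 : Continuous fun z : WeakSpace ℝ (S →ᵇ ℝ) =>
      ((L1 ((toWeakSpace ℝ (S →ᵇ ℝ)).symm z) : ℝ) : 𝕂) +
      ((L2 ((toWeakSpace ℝ (S →ᵇ ℝ)).symm z) : ℝ) : 𝕂) * RCLike.I :=
    (RCLike.continuous_ofReal.comp h1).add ((RCLike.continuous_ofReal.comp h2).mul
      continuous_const)
  refine h3.congr fun z => ?_
  exact RCLike.re_add_im ((Λ : (S →ᵇ 𝕂) →L[𝕂] 𝕂) (emb ((toWeakSpace ℝ (S →ᵇ ℝ)).symm z)))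

theorem wap_emb (f : S →ᵇ ℝ) (hf : IsWAP f) : IsWeaklyAP 𝕂 (emb f : S →ᵇ 𝕂) := by
  have h1 := hf.image (continuous_emb (𝕂 := 𝕂) (S := S))
  refine h1.of_isClosed_subset isClosed_closure ?_
  refine closure_minimal ?_ h1.isClosed
  rintro _ ⟨a, rfl⟩
  exact ⟨_, subset_closure ⟨a, rfl⟩, rfl⟩

theorem real_of_rclike (h : HasLIM 𝕂 S) : ∃ m : (S →ᵇ ℝ) → ℝ, IsLIM m := by
  obtain ⟨m, hm⟩ := h
  refine ⟨fun f => RCLike.re (m (emb f)), ⟨fun f g hf hg => ?_, fun c f hf => ?_,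
    fun f hf h0 => ?_, ?_, fun a f hf => ?_⟩⟩
  · show RCLike.re (m (emb (f + g))) = _
    rw [_root_.map_add, hm.map_add _ _ (wap_emb f hf) (wap_emb g hg), _root_.map_add]
  · show RCLike.re (m (emb (c • f))) = _
    have e1 : (emb (c • f) : S →ᵇ 𝕂) = (c : 𝕂) • emb f := by
      ext s
      show (((c * f s : ℝ)) : 𝕂) = (c : 𝕂) * ((f s : ℝ) : 𝕂)
      rw [RCLike.ofReal_mul]
    rw [e1, hm.map_smul _ _ (wap_emb f hf), RCLike.re_ofReal_mul]
  · obtain ⟨r, hr, hr'⟩ := hm.nonneg _ (wap_emb f hf) fun s => ⟨f s, h0 s, rfl⟩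
    show 0 ≤ RCLike.re (m (emb f))
    rw [hr', RCLike.ofReal_re]
    exact hr
  · show RCLike.re (m (emb 1)) = 1
    have e1 : (emb 1 : S →ᵇ 𝕂) = 1 := by
      ext s
      rw [emb_apply, BoundedContinuousFunction.coe_one, BoundedContinuousFunction.coe_one,
        Pi.one_apply, Pi.one_apply, RCLike.ofReal_one]
    rw [e1, hm.map_one, RCLike.one_re]
  · show RCLike.re (m (emb (lsh a f))) = RCLike.re (m (emb f))
    have e1 : (emb (lsh a f) : S →ᵇ 𝕂) = leftTranslate 𝕂 a (emb f) := rfl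
    rw [e1, hm.invariant _ _ (wap_emb f hf)]

end Real

/-- **Q1 of MP_c68506_an, affirmative answer.** If `WAP(S)` has a left invariant mean, the
semitopological semigroup `S` has property (F). -/
theorem result (𝕂 : Type x) [RCLike 𝕂] (𝕜 : Type y) [RCLike 𝕜] (S : Type u) [Semigroup S]
    [TopologicalSpace S] [SeparatelyContinuousMul S] (h : HasLIM 𝕂 S) :
    PropertyF.{u, v, w, y} 𝕜 S := by
  intro E _ _ _ _ _ _ ι Q hQ C hne hcomp hconv T hT h1 _ h2 h3
  obtain ⟨m, hm⟩ := real_of_rclike h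
  have i1 : IsTopologicalAddGroup E := hQ.topologicalAddGroup
  have i2 : ContinuousSMul 𝕜 E := hQ.continuousSMul
  have i3 : LocallyConvexSpace ℝ E := hQ.toLocallyConvexSpace
  have i4 : ContinuousSMul ℝ E := IsScalarTower.continuousSMul 𝕜
  have i5 : SeparatingDual 𝕜 E := ⟨fun z hz =>
    (RCLike.geometric_hahn_banach_point_point (𝕜 := 𝕜) hz).imp fun f hf hf' => by
      simp [hf'] at hf⟩
  refine fixed_point m hm (𝕜 := 𝕜) (fun i => (Q i).restrictScalars ℝ)
    (fun i => hQ.continuous_seminorm i) (fun z hz => ?_) C hne hcomp hconv T hT h1 h2 h3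
  by_contra hz0
  obtain ⟨i, hi⟩ := hQ.separating_of_T1 z hz0
  exact hi (hz i)

end Pool.Agent.Results.MP_c68506_an.FixedPointWAP
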